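import Mathlib

set_option autoImplicit false

/-! Averages over a finite set and over random multisets. -/

namespace Pool.Agent.H252R2.TD
open Finset

variable {V : Type*} [Fintype V]

/-- average over `V` -/
noncomputable def av (f : V → ℝ) : ℝ := (∑ v, f v) / (Fintype.card V : ℝ)

theorem av_add (f g : V → ℝ) : av (fun v => f v + g v) = av f + av g := by
  simp only [av, Finset.sum_add_distrib, add_div]

theorem av_sub (f g : V → ℝ) : av (fun v => f v - g v) = av f - av g := by
  simp only [av, Finset.sum_sub_distrib, sub_div]

theorem av_mul_left (c : ℝ) (f : V → ℝ) : av (fun v => c * f v) = c * av f := by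
  simp only [av, ← Finset.mul_sum, mul_div_assoc]

theorem av_mul_right (c : ℝ) (f : V → ℝ) : av (fun v => f v * c) = av f * c := by
  simp only [av, ← Finset.sum_mul]; ring

theorem av_mono {f g : V → ℝ} (h : ∀ v, f v ≤ g v) : av f ≤ av g := by
  unfold av
  exact div_le_div_of_nonneg_right (Finset.sum_le_sum fun v _ => h v) (Nat.cast_nonneg _)

theorem av_const [Nonempty V] (c : ℝ) : av (fun _ : V => c) = c := by
  have : (Fintype.card V : ℝ) ≠ 0 := by exact_mod_cast Fintype.card_ne_zero
  simp only [av, Finset.sum_const, Finset.card_univ, nsmul_eq_mul]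
  field_simp

theorem av_nonneg {f : V → ℝ} (h : ∀ v, 0 ≤ f v) : 0 ≤ av f :=
  div_nonneg (Finset.sum_nonneg fun v _ => h v) (Nat.cast_nonneg _)

theorem av_comm {W : Type*} [Fintype W] (f : V → W → ℝ) :
    av (fun v => av (fun w => f v w)) = av (fun w => av (fun v => f v w)) := by
  simp only [av, ← Finset.sum_div]
  rw [Finset.sum_comm, div_div, div_div, mul_comm]

theorem av_mul_av {W : Type*} [Fintype W] (f : V → ℝ) (g : W → ℝ) :
    av (fun v => av (fun w => f v * g w)) = av f * av g := by
  simp only [av_mul_left, av_mul_right]

variable [DecidableEq V]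

/-- average of `F` over random multisets of size `k` (i.i.d. uniform elements) -/
noncomputable def E : ℕ → (Multiset V → ℝ) → ℝ
  | 0, F => F 0
  | k + 1, F => av (fun x => E k (fun M => F (x ::ₘ M)))

theorem E_succ (k : ℕ) (F : Multiset V → ℝ) :
    E (k + 1) F = av (fun x => E k (fun M => F (x ::ₘ M))) := rfl

theorem E_mono (k : ℕ) : ∀ {F G : Multiset V → ℝ},
    (∀ M : Multiset V, M.card = k → F M ≤ G M) → E k F ≤ E k G := by
  induction k with
  | zero => intro F G h; exact h 0 rfl
  | succ k ih =>
    intro F G h
    exact av_mono fun x => ih fun M hM => h _ (by simp [hM])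

theorem E_congr (k : ℕ) {F G : Multiset V → ℝ}
    (h : ∀ M : Multiset V, M.card = k → F M = G M) : E k F = E k G :=
  le_antisymm (E_mono k fun M hM => (h M hM).le) (E_mono k fun M hM => (h M hM).ge)

theorem E_add (k : ℕ) : ∀ (F G : Multiset V → ℝ),
    E k (fun M => F M + G M) = E k F + E k G := by
  induction k with
  | zero => intro F G; rfl
  | succ k ih => intro F G; simp only [E_succ, ih, av_add]

theorem E_sub (k : ℕ) : ∀ (F G : Multiset V → ℝ),
    E k (fun M => F M - G M) = E k F - E k G := by
  induction k with
  | zero => intro F G; rfl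
  | succ k ih => intro F G; simp only [E_succ, ih, av_sub]

theorem E_mul_left (k : ℕ) (c : ℝ) : ∀ (F : Multiset V → ℝ),
    E k (fun M => c * F M) = c * E k F := by
  induction k with
  | zero => intro F; rfl
  | succ k ih => intro F; simp only [E_succ, ih, av_mul_left]

theorem E_const [Nonempty V] (k : ℕ) (c : ℝ) : E k (fun _ : Multiset V => c) = c := by
  induction k with
  | zero => rfl
  | succ k ih => simp only [E_succ, ih, av_const]

theorem E_av_comm {W : Type*} [Fintype W] (k : ℕ) : ∀ (F : W → Multiset V → ℝ),
    E k (fun M => av (fun x => F x M)) = av (fun x => E k (F x)) := by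
  induction k with
  | zero => intro F; rfl
  | succ k ih =>
    intro F
    simp only [E_succ, ih]
    exact av_comm _

theorem E_zero_fun [Nonempty V] (k : ℕ) : E k (fun _ : Multiset V => (0 : ℝ)) = 0 := E_const k 0

/-- exchangeability: summing over the elements of a random multiset of size `k+1` is the same as
`(k+1)` times picking an extra element -/
theorem E_exch [Nonempty V] (k : ℕ) : ∀ (G : V → Multiset V → ℝ),
    E (k + 1) (fun M => (M.map (fun x => G x (M.erase x))).sum) =
      ((k : ℝ) + 1) * av (fun x => E k (G x)) := by
  induction k with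
  | zero =>
    intro G
    simp only [E]
    simp
  | succ k ih =>
    intro G
    rw [E_succ]
    have h1 : ∀ y : V, E (k + 1) (fun M => ((y ::ₘ M).map
        (fun x => G x ((y ::ₘ M).erase x))).sum) =
        E (k + 1) (G y) + ((k : ℝ) + 1) * av (fun x => E k (fun N => G x (y ::ₘ N))) := by
      intro y
      have h2 : ∀ M : Multiset V, ((y ::ₘ M).map (fun x => G x ((y ::ₘ M).erase x))).sum =
          G y M + (M.map (fun x => G x (y ::ₘ M.erase x))).sum := by
        intro M
        rw [Multiset.map_cons, Multiset.sum_cons, Multiset.erase_cons_head]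
        congr 2
        apply Multiset.map_congr rfl
        intro x hx
        by_cases hxy : y = x
        · subst hxy
          rw [Multiset.erase_cons_head, Multiset.cons_erase hx]
        · rw [Multiset.erase_cons_tail _ (fun h => hxy h)]
      simp only [h2]
      rw [E_add]
      exact congrArg (E (k + 1) (G y) + ·) (ih (fun x N => G x (y ::ₘ N)))
    simp only [h1]
    rw [av_add, av_mul_left]
    have h3 : av (fun y => av (fun x => E k (fun N => G x (y ::ₘ N)))) =
        av (fun x => E (k + 1) (G x)) := by
      rw [av_comm]
      simp only [E_succ]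
    rw [h3]
    push_cast
    ring

/-- the probability that a random multiset of size `k` is a given `k`-set is `k!/n^k` -/
theorem E_ind [Nonempty V] (k : ℕ) : ∀ (S : Finset V), S.card = k →
    E k (fun M => if M = S.val then (1 : ℝ) else 0) =
      (k.factorial : ℝ) / (Fintype.card V : ℝ) ^ k := by
  induction k with
  | zero =>
    intro S hS
    rw [Finset.card_eq_zero.1 hS]
    simp [E]
  | succ k ih =>
    intro S hS
    rw [E_succ]
    have h1 : ∀ x : V, E k (fun M => if x ::ₘ M = S.val then (1 : ℝ) else 0) =
        if x ∈ S then (k.factorial : ℝ) / (Fintype.card V : ℝ) ^ k else 0 := by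
      intro x
      split_ifs with hx
      · rw [← ih (S.erase x) (by rw [Finset.card_erase_of_mem hx, hS]; rfl)]
        apply E_congr
        intro M _
        have : x ::ₘ M = S.val ↔ M = (S.erase x).val := by
          rw [Finset.erase_val]
          constructor
          · intro h; rw [← h, Multiset.erase_cons_head]
          · intro h; rw [h, Multiset.cons_erase (by exact hx)]
        simp only [this]
      · refine Eq.trans (E_congr k fun M _ => ?_) (E_zero_fun (V := V) k)
        rw [if_neg]
        intro h
        apply hx
        rw [← Finset.mem_val, ← h]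
        exact Multiset.mem_cons_self _ _
    simp only [h1]
    have hn : (Fintype.card V : ℝ) ≠ 0 := by exact_mod_cast Fintype.card_ne_zero
    unfold av
    rw [Finset.sum_ite_mem, Finset.univ_inter, Finset.sum_const, hS, nsmul_eq_mul,
      Nat.factorial_succ]
    push_cast
    field_simp
    ring

end Pool.Agent.H252R2.TD
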