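import Pool.Agent.H252R2.TD.Avg

set_option autoImplicit false

/-! The exact second and third moment identities behind de Caen's argument for `t(r+1,r)`. -/

namespace Pool.Agent.H252R2.TD
open Finset

variable {V : Type*} [Fintype V] [DecidableEq V]

omit [Fintype V] in
theorem sum_cons_erase (G : V → Multiset V → ℝ) (y : V) (M : Multiset V) :
    ((y ::ₘ M).map (fun x => G x ((y ::ₘ M).erase x))).sum =
      G y M + (M.map (fun x => G x (y ::ₘ M.erase x))).sum := by
  rw [Multiset.map_cons, Multiset.sum_cons, Multiset.erase_cons_head]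
  congr 2
  apply Multiset.map_congr rfl
  intro x hx
  by_cases hxy : y = x
  · subst hxy
    rw [Multiset.erase_cons_head, Multiset.cons_erase hx]
  · rw [Multiset.erase_cons_tail _ (fun h => hxy h)]

/-- number of elements whose removal leaves a multiset in the family -/
noncomputable def ee (g : Multiset V → ℝ) (M : Multiset V) : ℝ :=
  (M.map (fun x => g (M.erase x))).sum

omit [Fintype V] in
theorem ee_cons (g : Multiset V → ℝ) (y : V) (M : Multiset V) :
    ee g (y ::ₘ M) = g M + ee (fun K => g (y ::ₘ K)) M := by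
  unfold ee
  exact sum_cons_erase (fun _ N => g N) y M

/-- `0/1`-valued -/
def ZO (g : Multiset V → ℝ) : Prop := ∀ M, g M = 0 ∨ g M = 1

omit [Fintype V] [DecidableEq V] in
theorem ZO.nonneg {g : Multiset V → ℝ} (h : ZO g) (M : Multiset V) : 0 ≤ g M := by
  rcases h M with h | h <;> rw [h] <;> norm_num

omit [Fintype V] [DecidableEq V] in
theorem ZO.le_one {g : Multiset V → ℝ} (h : ZO g) (M : Multiset V) : g M ≤ 1 := by
  rcases h M with h | h <;> rw [h] <;> norm_num

omit [Fintype V] in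
theorem ee_nat {g : Multiset V → ℝ} (h : ZO g) (M : Multiset V) :
    ∃ m : ℕ, m ≤ M.card ∧ ee g M = m := by
  have key : ∀ (N : Multiset V) (f : V → ℝ), (∀ x, f x = 0 ∨ f x = 1) →
      ∃ m : ℕ, m ≤ N.card ∧ (N.map f).sum = m := by
    intro N f hf
    induction N using Multiset.induction with
    | empty => exact ⟨0, by simp, by simp⟩
    | cons a N ih =>
      obtain ⟨m, hm, hm'⟩ := ih
      rcases hf a with h0 | h0
      · exact ⟨m, by rw [Multiset.card_cons]; omega, by simp [h0, hm']⟩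
      · exact ⟨m + 1, by rw [Multiset.card_cons]; omega, by
          rw [Multiset.map_cons, Multiset.sum_cons, h0, hm']; push_cast; ring⟩
  exact key M _ fun x => h _

omit [Fintype V] in
/-- `e (e-1)` as a double sum -/
theorem ee_mul {g : Multiset V → ℝ} (h : ZO g) (M : Multiset V) :
    ee g M * (ee g M - 1) = (M.map (fun x => ((M.erase x).map (fun y =>
      g (y ::ₘ (M.erase x).erase y) * g (x ::ₘ (M.erase x).erase y))).sum)).sum := by
  have h1 : ee g M * (ee g M - 1) =
      (M.map (fun x => g (M.erase x) * (ee g M - 1))).sum := by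
    rw [Multiset.sum_map_mul_right]; rfl
  rw [h1]
  congr 1
  apply Multiset.map_congr rfl
  intro x hx
  have h2 : ee g M = g (M.erase x) + ee (fun K => g (x ::ₘ K)) (M.erase x) := by
    rw [← ee_cons, Multiset.cons_erase hx]
  rw [h2]
  have h3 : g (M.erase x) * (g (M.erase x) + ee (fun K => g (x ::ₘ K)) (M.erase x) - 1) =
      g (M.erase x) * ee (fun K => g (x ::ₘ K)) (M.erase x) := by
    rcases h (M.erase x) with h0 | h0 <;> rw [h0] <;> ring
  rw [h3]
  unfold ee
  rw [← Multiset.sum_map_mul_left]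
  congr 1
  apply Multiset.map_congr rfl
  intro y hy
  rw [Multiset.cons_erase hy]

omit [Fintype V] in
/-- `e (e-1) (|M| - e)` as a triple sum -/
theorem ee_mul3 {g : Multiset V → ℝ} (h : ZO g) (M : Multiset V) :
    ee g M * (ee g M - 1) * ((M.card : ℝ) - ee g M) =
      (M.map (fun z => ((M.erase z).map (fun y => (((M.erase z).erase y).map (fun x =>
        (1 - g (y ::ₘ x ::ₘ ((M.erase z).erase y).erase x)) *
        (g (z ::ₘ x ::ₘ ((M.erase z).erase y).erase x) *
         g (z ::ₘ y ::ₘ ((M.erase z).erase y).erase x)))).sum)).sum)).sum := by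
  have h0 : (M.card : ℝ) - ee g M = (M.map (fun z => 1 - g (M.erase z))).sum := by
    rw [Multiset.sum_map_sub]
    simp [ee]
  have h1 : ee g M * (ee g M - 1) * ((M.card : ℝ) - ee g M) =
      (M.map (fun z => (ee g M * (ee g M - 1)) * (1 - g (M.erase z)))).sum := by
    rw [h0, Multiset.sum_map_mul_left]
  rw [h1]
  congr 1
  apply Multiset.map_congr rfl
  intro z hz
  set N := M.erase z with hN
  have h2 : ee g M = g N + ee (fun K => g (z ::ₘ K)) N := by
    rw [← ee_cons, hN, Multiset.cons_erase hz]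
  have h3 : ee g M * (ee g M - 1) * (1 - g N) =
      (1 - g N) * (ee (fun K => g (z ::ₘ K)) N * (ee (fun K => g (z ::ₘ K)) N - 1)) := by
    rw [h2]
    rcases h N with h0 | h0 <;> rw [h0] <;> ring
  have hz' : ZO (fun K => g (z ::ₘ K)) := fun K => h _
  rw [h3, ee_mul hz', ← Multiset.sum_map_mul_left]
  congr 1
  apply Multiset.map_congr rfl
  intro y hy
  rw [← Multiset.sum_map_mul_left]
  congr 1
  apply Multiset.map_congr rfl
  intro x hx
  rw [Multiset.cons_erase hx, Multiset.cons_erase hy]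

variable [Nonempty V]

theorem E_ee (k : ℕ) (g : Multiset V → ℝ) :
    E (k + 1) (ee g) = ((k : ℝ) + 1) * E k g := by
  have := E_exch (V := V) k (fun _ N => g N)
  unfold ee
  rw [this, av_const]

/-- the degree of a multiset of size `r-1` -/
noncomputable def pp (g : Multiset V → ℝ) (s : Multiset V) : ℝ := av (fun v => g (v ::ₘ s))

theorem E_ee2 (k : ℕ) {g : Multiset V → ℝ} (h : ZO g) :
    E (k + 2) (fun M => ee g M * (ee g M - 1)) =
      ((k : ℝ) + 2) * ((k : ℝ) + 1) * E k (fun s => pp g s ^ 2) := by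
  simp only [ee_mul h]
  have h1 := E_exch (V := V) (k + 1) (fun x N => (N.map (fun y =>
      g (y ::ₘ N.erase y) * g (x ::ₘ N.erase y))).sum)
  have h2 : ∀ x : V, E (k + 1) (fun N => (N.map (fun y =>
      g (y ::ₘ N.erase y) * g (x ::ₘ N.erase y))).sum) =
      ((k : ℝ) + 1) * av (fun y => E k (fun s => g (y ::ₘ s) * g (x ::ₘ s))) := fun x =>
    E_exch (V := V) k (fun y s => g (y ::ₘ s) * g (x ::ₘ s))
  simp only [h2] at h1
  rw [show k + 2 = (k + 1) + 1 from rfl]
  refine h1.trans ?_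
  rw [av_mul_left]
  have h3 : av (fun x => av (fun y => E k (fun s => g (y ::ₘ s) * g (x ::ₘ s)))) =
      E k (fun s => pp g s ^ 2) := by
    simp only [← E_av_comm]
    apply E_congr
    intro s _
    have := av_mul_av (fun x : V => g (x ::ₘ s)) (fun y : V => g (y ::ₘ s))
    unfold pp
    rw [sq, ← this]
    simp only [mul_comm]
  rw [h3]
  push_cast
  ring

/-- probability of the pattern `xz, yz ∈ h`, `xy ∉ h` -/
noncomputable def bet (k : ℕ) (g : Multiset V → ℝ) : ℝ :=
  av (fun z : V => av (fun y : V => av (fun x : V => E k (fun s =>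
    (1 - g (y ::ₘ x ::ₘ s)) * (g (z ::ₘ x ::ₘ s) * g (z ::ₘ y ::ₘ s))))))

theorem E_ee3 (k : ℕ) {g : Multiset V → ℝ} (h : ZO g) :
    E (k + 3) (fun M => ee g M * (ee g M - 1) * ((M.card : ℝ) - ee g M)) =
      ((k : ℝ) + 3) * ((k : ℝ) + 2) * ((k : ℝ) + 1) * bet k g := by
  simp only [ee_mul3 h]
  have h3 : ∀ z y : V, E (k + 1) (fun K => (K.map (fun x =>
        (1 - g (y ::ₘ x ::ₘ K.erase x)) *
        (g (z ::ₘ x ::ₘ K.erase x) * g (z ::ₘ y ::ₘ K.erase x)))).sum) =
      ((k : ℝ) + 1) * av (fun x => E k (fun s =>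
        (1 - g (y ::ₘ x ::ₘ s)) * (g (z ::ₘ x ::ₘ s) * g (z ::ₘ y ::ₘ s)))) := fun z y =>
    E_exch (V := V) k (fun x s =>
        (1 - g (y ::ₘ x ::ₘ s)) * (g (z ::ₘ x ::ₘ s) * g (z ::ₘ y ::ₘ s)))
  have h2 : ∀ z : V, E (k + 2) (fun N => (N.map (fun y => ((N.erase y).map (fun x =>
        (1 - g (y ::ₘ x ::ₘ (N.erase y).erase x)) *
        (g (z ::ₘ x ::ₘ (N.erase y).erase x) * g (z ::ₘ y ::ₘ (N.erase y).erase x)))).sum)).sum) =
      (((k + 1 : ℕ) : ℝ) + 1) * av (fun y => ((k : ℝ) + 1) * av (fun x => E k (fun s =>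
        (1 - g (y ::ₘ x ::ₘ s)) * (g (z ::ₘ x ::ₘ s) * g (z ::ₘ y ::ₘ s))))) := by
    intro z
    have := E_exch (V := V) (k + 1) (fun y K => (K.map (fun x =>
        (1 - g (y ::ₘ x ::ₘ K.erase x)) *
        (g (z ::ₘ x ::ₘ K.erase x) * g (z ::ₘ y ::ₘ K.erase x)))).sum)
    simp only [h3] at this
    exact this
  have h1 := E_exch (V := V) (k + 2) (fun z N => (N.map (fun y => ((N.erase y).map (fun x =>
        (1 - g (y ::ₘ x ::ₘ (N.erase y).erase x)) *
        (g (z ::ₘ x ::ₘ (N.erase y).erase x) * g (z ::ₘ y ::ₘ (N.erase y).erase x)))).sum)).sum)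
  simp only [h2] at h1
  refine h1.trans ?_
  simp only [av_mul_left]
  unfold bet
  push_cast
  ring

/-- the basic inequality: `(r+1) a - 1 - r E p^2 ≥ (r-1) beta` with `r = k + 2` -/
theorem basic (k : ℕ) {g : Multiset V → ℝ} (h : ZO g)
    (hc : ∀ M : Multiset V, M.card = k + 3 → 1 ≤ ee g M) :
    ((k : ℝ) + 1) * bet k g ≤
      ((k : ℝ) + 3) * E (k + 2) g - 1 - ((k : ℝ) + 2) * E (k + 1) (fun s => pp g s ^ 2) := by
  have h1 := E_ee (V := V) (k + 2) g
  have h2 := E_ee2 (V := V) (k + 1) h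
  have h3 := E_ee3 (V := V) k h
  have h4 : E (k + 3) (fun M => ee g M * (ee g M - 1) * ((M.card : ℝ) - ee g M)) ≤
      E (k + 3) (fun M => ((k : ℝ) + 2) * (((k : ℝ) + 3) * (ee g M - 1) -
        ee g M * (ee g M - 1))) := by
    apply E_mono
    intro M hM
    obtain ⟨m, hm1, hm2⟩ := ee_nat h M
    have hm3 := hc M hM
    rw [hM] at hm1 ⊢
    rw [hm2] at hm3 ⊢
    push_cast
    rcases Nat.lt_or_ge m (k + 3) with hlt | hge
    · have hk : (m : ℝ) ≤ (k : ℝ) + 2 := by
        have : m ≤ k + 2 := by omega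
        exact_mod_cast this
      nlinarith [mul_nonneg (mul_nonneg (sub_nonneg.2 hm3) (sub_nonneg.2 hk))
        (by linarith : (0 : ℝ) ≤ (k : ℝ) + 3 - m)]
    · have : m = k + 3 := le_antisymm hm1 hge
      subst this
      push_cast
      nlinarith
  have h5 : E (k + 3) (fun M => ((k : ℝ) + 2) * (((k : ℝ) + 3) * (ee g M - 1) -
        ee g M * (ee g M - 1))) =
      ((k : ℝ) + 2) * (((k : ℝ) + 3) * (E (k + 3) (ee g) - 1) -
        E (k + 3) (fun M => ee g M * (ee g M - 1))) := by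
    rw [E_mul_left, E_sub, E_mul_left, E_sub, E_const]
  rw [h3, h5, show k + 3 = (k + 2) + 1 from rfl, h1, show (k + 2) + 1 = (k + 1) + 2 from rfl, h2] at h4
  push_cast at h4
  have hk : (0 : ℝ) ≤ k := Nat.cast_nonneg _
  have h6 : ((k : ℝ) + 3) * ((k : ℝ) + 2) * (((k : ℝ) + 1) * bet k g) ≤
      ((k : ℝ) + 3) * ((k : ℝ) + 2) * (((k : ℝ) + 3) * E (k + 2) g - 1 -
        ((k : ℝ) + 2) * E (k + 1) (fun s => pp g s ^ 2)) := by
    nlinarith [h4]
  exact le_of_mul_le_mul_left h6 (by positivity)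

end Pool.Agent.H252R2.TD
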