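import Pool.Agent.H252R2.TD.Avg

set_option autoImplicit false

/-! The three-uniform inequality. -/

namespace Pool.Agent.H252R2.TD
open Finset

theorem av_prod {A B : Type*} [Fintype A] [Fintype B] (f : A → B → ℝ) :
    av (fun p : A × B => f p.1 p.2) = av (fun a => av (fun b => f a b)) := by
  unfold av
  rw [Fintype.sum_prod_type, Fintype.card_prod, ← Finset.sum_div, div_div]
  push_cast
  rw [mul_comm (Fintype.card B : ℝ)]

theorem av_sq {A : Type*} [Fintype A] (f : A → ℝ) :
    (av f) ^ 2 = av (fun a => av (fun b => f a * f b)) := by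
  rw [av_mul_av, sq]

variable {V : Type*} [Fintype V] [Nonempty V]

/-- reordering of a four-fold average -/
theorem av4_perm (f : V → V → V → V → ℝ) :
    av (fun i => av (fun j => av (fun a => av (fun k => f a k i j)))) =
      av (fun a => av (fun k => av (fun i => av (fun j => f a k i j)))) := by
  calc av (fun i => av (fun j => av (fun a => av (fun k => f a k i j))))
      = av (fun i => av (fun a => av (fun j => av (fun k => f a k i j)))) := by
        congr 1; funext i; exact av_comm _
    _ = av (fun a => av (fun i => av (fun j => av (fun k => f a k i j)))) := av_comm _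
    _ = av (fun a => av (fun i => av (fun k => av (fun j => f a k i j)))) := by
        congr 1; funext a; congr 1; funext i; exact av_comm _
    _ = av (fun a => av (fun k => av (fun i => av (fun j => f a k i j)))) := by
        congr 1; funext a; exact av_comm _

theorem av4_perm' (f : V → V → V → V → ℝ) :
    av (fun k => av (fun j => av (fun i => av (fun a => f a k i j)))) =
      av (fun a => av (fun k => av (fun i => av (fun j => f a k i j)))) := by
  calc av (fun k => av (fun j => av (fun i => av (fun a => f a k i j))))
      = av (fun k => av (fun i => av (fun j => av (fun a => f a k i j)))) := by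
        congr 1; funext k; exact av_comm _
    _ = av (fun k => av (fun i => av (fun a => av (fun j => f a k i j)))) := by
        congr 1; funext k; congr 1; funext i; exact av_comm _
    _ = av (fun k => av (fun a => av (fun i => av (fun j => f a k i j)))) := by
        congr 1; funext k; exact av_comm _
    _ = av (fun a => av (fun k => av (fun i => av (fun j => f a k i j)))) := av_comm _

section main

variable (t : V → V → V → ℝ)

/-- pair degrees -/
noncomputable def Pd (x y : V) : ℝ := av (fun z => t x y z)

/-- truncation -/
noncomputable def Gd (al : ℝ) (x y : V) : ℝ := by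
  classical exact if Pd t x y ≤ 2 * al then 1 else 0

theorem Gd_nonneg (al : ℝ) (x y : V) : 0 ≤ Gd t al x y := by
  unfold Gd; split_ifs <;> norm_num

theorem Gd_le_one (al : ℝ) (x y : V) : Gd t al x y ≤ 1 := by
  unfold Gd; split_ifs <;> norm_num

theorem GP_le {al : ℝ} (hal : 0 ≤ al) (x y : V) : Gd t al x y * Pd t x y ≤ 2 * al := by
  unfold Gd
  split_ifs with h
  · linarith
  · simp only [zero_mul]; linarith

variable (h0 : ∀ x y z, 0 ≤ t x y z) (h1 : ∀ x y z, t x y z ≤ 1)
  (s1 : ∀ x y z, t x y z = t y x z) (s2 : ∀ x y z, t x y z = t x z y)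

include h0 in
theorem Pd_nonneg (x y : V) : 0 ≤ Pd t x y := av_nonneg fun z => h0 x y z

include h0 in
theorem GP_nonneg (al : ℝ) (x y : V) : 0 ≤ Gd t al x y * Pd t x y :=
  mul_nonneg (Gd_nonneg t al x y) (Pd_nonneg t h0 x y)

include s1 in
theorem Pd_symm (x y : V) : Pd t x y = Pd t y x := by
  unfold Pd; congr 1; funext z; exact s1 x y z

include s1 in
theorem Gd_symm (al : ℝ) (x y : V) : Gd t al x y = Gd t al y x := by
  unfold Gd; rw [Pd_symm t s1 x y]

/-- the pattern average -/
noncomputable def bt : ℝ :=
  av (fun a : V => av (fun k : V => av (fun i : V => av (fun j : V =>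
    (1 - t a i j) * (t a k i * t a k j)))))

/-- the test function -/
noncomputable def psi (al : ℝ) (x y z w v : V) : ℝ :=
  (1 - t x y v) * (Gd t al x v * t x z v) * (Gd t al y v * t y w v)

include s2 in
theorem av_t (x v : V) : av (fun z => t x z v) = Pd t x v := by
  unfold Pd; congr 1; funext z; exact s2 x z v


include h0 h1 in
theorem psi_mul_le (al : ℝ) (x y z w v v' : V) :
    psi t al x y z w v * psi t al x y z w v' ≤
      ((1 - t x v v') * (t x z v * t x z v')) * (Gd t al y v * t y w v) +
      (((1 - t y v v') * (t y w v * t y w v')) * (Gd t al x v * t x z v) +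
      ((1 - t x y v) * (t x v v' * t y v v')) *
        ((Gd t al x v * t x z v) * (Gd t al y v * t y w v))) := by
  have ha0 := h0 x v v'
  have ha1 := h1 x v v'
  have hb0 := h0 y v v'
  have hb1 := h1 y v v'
  have hgx := Gd_nonneg t al x v
  have hgx1 := Gd_le_one t al x v
  have hgy := Gd_nonneg t al y v
  have hgy1 := Gd_le_one t al y v
  have hgx' := Gd_nonneg t al x v'
  have hgx1' := Gd_le_one t al x v'
  have hgy' := Gd_nonneg t al y v'
  have hgy1' := Gd_le_one t al y v'
  have hxz := h0 x z v
  have hxz1 := h1 x z v
  have hxz' := h0 x z v'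
  have hxz1' := h1 x z v'
  have hyw := h0 y w v
  have hyw1 := h1 y w v
  have hyw' := h0 y w v'
  have hyw1' := h1 y w v'
  have hd0 : 0 ≤ 1 - t x y v := by linarith [h1 x y v]
  have hd1 : 1 - t x y v ≤ 1 := by linarith [h0 x y v]
  have hd0' : 0 ≤ 1 - t x y v' := by linarith [h1 x y v']
  have hd1' : 1 - t x y v' ≤ 1 := by linarith [h0 x y v']
  set X := Gd t al x v * t x z v with hX
  set X' := Gd t al x v' * t x z v' with hX'
  set Y := Gd t al y v * t y w v with hY
  set Y' := Gd t al y v' * t y w v' with hY'
  have X0 : 0 ≤ X := mul_nonneg hgx hxz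
  have X0' : 0 ≤ X' := mul_nonneg hgx' hxz'
  have Y0 : 0 ≤ Y := mul_nonneg hgy hyw
  have Y0' : 0 ≤ Y' := mul_nonneg hgy' hyw'
  have X1 : X ≤ t x z v := by
    calc X ≤ 1 * t x z v := mul_le_mul_of_nonneg_right hgx1 hxz
      _ = _ := one_mul _
  have X1' : X' ≤ t x z v' := by
    calc X' ≤ 1 * t x z v' := mul_le_mul_of_nonneg_right hgx1' hxz'
      _ = _ := one_mul _
  have Y1 : Y ≤ t y w v := by
    calc Y ≤ 1 * t y w v := mul_le_mul_of_nonneg_right hgy1 hyw
      _ = _ := one_mul _
  have Y1' : Y' ≤ t y w v' := by
    calc Y' ≤ 1 * t y w v' := mul_le_mul_of_nonneg_right hgy1' hyw'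
      _ = _ := one_mul _
  have Y2' : Y' ≤ 1 := Y1'.trans hyw1'
  have X2' : X' ≤ 1 := X1'.trans hxz1'
  have Y2 : Y ≤ 1 := Y1.trans hyw1
  have X2 : X ≤ 1 := X1.trans hxz1
  have key : psi t al x y z w v * psi t al x y z w v' =
      ((1 - t x y v) * (1 - t x y v')) * ((X * X') * (Y * Y')) := by
    simp only [psi, hX, hX', hY, hY']; ring
  rw [key]
  set d := (1 - t x y v) * (1 - t x y v') with hd
  have d0 : 0 ≤ d := mul_nonneg hd0 hd0'
  have d1 : d ≤ 1 - t x y v := by
    calc d ≤ (1 - t x y v) * 1 := mul_le_mul_of_nonneg_left hd1' hd0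
      _ = _ := mul_one _
  have d2 : d ≤ 1 := d1.trans hd1
  set a := t x v v' with hadef
  set b := t y v v' with hbdef
  have e1 : d * ((X * X') * (Y * Y')) ≤
      d * ((X * X') * (Y * Y')) * ((1 - a) + ((1 - b) + a * b)) := by
    have : 1 ≤ (1 - a) + ((1 - b) + a * b) := by nlinarith
    have hn : 0 ≤ d * ((X * X') * (Y * Y')) := by positivity
    nlinarith
  have e2 : d * ((X * X') * (Y * Y')) * (1 - a) ≤
      ((1 - a) * (t x z v * t x z v')) * Y := by
    have q1 : X * X' ≤ t x z v * t x z v' := mul_le_mul X1 X1' X0' hxz
    have q2 : Y * Y' ≤ Y := by nlinarith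
    have q3 : d * ((X * X') * (Y * Y')) ≤ 1 * ((t x z v * t x z v') * Y) := by
      apply mul_le_mul d2 _ (by positivity) zero_le_one
      exact mul_le_mul q1 q2 (by positivity) (by positivity)
    calc _ ≤ (1 * ((t x z v * t x z v') * Y)) * (1 - a) :=
          mul_le_mul_of_nonneg_right q3 (by linarith)
      _ = _ := by ring
  have e3 : d * ((X * X') * (Y * Y')) * (1 - b) ≤
      ((1 - b) * (t y w v * t y w v')) * X := by
    have q1 : Y * Y' ≤ t y w v * t y w v' := mul_le_mul Y1 Y1' Y0' hyw
    have q2 : X * X' ≤ X := by nlinarith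
    have q3 : d * ((X * X') * (Y * Y')) ≤ 1 * (X * (t y w v * t y w v')) := by
      apply mul_le_mul d2 _ (by positivity) zero_le_one
      exact mul_le_mul q2 q1 (by positivity) (by positivity)
    calc _ ≤ (1 * (X * (t y w v * t y w v'))) * (1 - b) :=
          mul_le_mul_of_nonneg_right q3 (by linarith)
      _ = _ := by ring
  have e4 : d * ((X * X') * (Y * Y')) * (a * b) ≤
      ((1 - t x y v) * (a * b)) * (X * Y) := by
    have q1 : Y * Y' ≤ Y := by nlinarith
    have q2 : X * X' ≤ X := by nlinarith
    have q3 : d * ((X * X') * (Y * Y')) ≤ (1 - t x y v) * (X * Y) := by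
      apply mul_le_mul d1 _ (by positivity) hd0
      exact mul_le_mul q2 q1 (by positivity) X0
    calc _ ≤ ((1 - t x y v) * (X * Y)) * (a * b) :=
          mul_le_mul_of_nonneg_right q3 (by positivity)
      _ = _ := by ring
  calc _ ≤ _ := e1
    _ = d * ((X * X') * (Y * Y')) * (1 - a) + (d * ((X * X') * (Y * Y')) * (1 - b) +
        d * ((X * X') * (Y * Y')) * (a * b)) := by ring
    _ ≤ _ := add_le_add e2 (add_le_add e3 e4)

/-- six-fold average -/
noncomputable def Phi (al : ℝ) : ℝ :=
  av (fun x : V => av (fun y : V => av (fun z : V => av (fun w : V =>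
    (av (fun v => psi t al x y z w v)) ^ 2))))

theorem Phi_eq (al : ℝ) : Phi t al =
    av (fun v : V => av (fun v' : V => av (fun x : V => av (fun y : V => av (fun z : V =>
      av (fun w : V => psi t al x y z w v * psi t al x y z w v')))))) := by
  have e : ∀ F : V → V → V → V → ℝ,
      av (fun x : V => av (fun y : V => av (fun z : V => av (fun w : V => F x y z w)))) =
      av (fun p : V × V × V × V => F p.1 p.2.1 p.2.2.1 p.2.2.2) := by
    intro F
    rw [av_prod (fun (x : V) (q : V × V × V) => F x q.1 q.2.1 q.2.2)]
    congr 1; funext x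
    rw [av_prod (fun (y : V) (q : V × V) => F x y q.1 q.2)]
    congr 1; funext y
    rw [av_prod (fun (z : V) (w : V) => F x y z w)]
  unfold Phi
  rw [e (fun x y z w => (av (fun v => psi t al x y z w v)) ^ 2)]
  simp only [e (fun x y z w => psi t al x y z w _ * psi t al x y z w _)]
  simp only [av_sq]
  rw [av_comm]
  congr 1; funext v
  rw [av_comm]

include h0 h1 s1 s2 in
theorem Phi_le {al : ℝ} (hal : 0 ≤ al) : Phi t al ≤ (4 * al + 4 * al ^ 2) * bt t := by
  rw [Phi_eq]
  have hA0 : ∀ x z v v' : V, 0 ≤ (1 - t x v v') * (t x z v * t x z v') := fun x z v v' =>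
    mul_nonneg (by linarith [h1 x v v']) (mul_nonneg (h0 _ _ _) (h0 _ _ _))
  -- the three parts
  have step : ∀ v v' : V, av (fun x : V => av (fun y : V => av (fun z : V =>
      av (fun w : V => psi t al x y z w v * psi t al x y z w v')))) ≤
      2 * al * av (fun x : V => av (fun z : V => (1 - t x v v') * (t x z v * t x z v'))) +
      (2 * al * av (fun y : V => av (fun w : V => (1 - t y v v') * (t y w v * t y w v'))) +
      (2 * al) ^ 2 * av (fun x : V => av (fun y : V =>
        (1 - t x y v) * (t x v v' * t y v v')))) := by
    intro v v'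
    have r1 : av (fun x : V => av (fun y : V => av (fun z : V => av (fun w : V =>
        ((1 - t x v v') * (t x z v * t x z v')) * (Gd t al y v * t y w v))))) ≤
        2 * al * av (fun x : V => av (fun z : V =>
          (1 - t x v v') * (t x z v * t x z v'))) := by
      rw [← av_mul_left]
      apply av_mono
      intro x
      simp only [av_mul_left, av_t t s2, av_mul_right]
      rw [mul_comm (2 * al)]
      apply mul_le_mul_of_nonneg_left
      · calc av (fun y => Gd t al y v * Pd t y v) ≤ av (fun _ : V => 2 * al) :=
            av_mono fun y => GP_le t hal y v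
          _ = _ := av_const _
      · have := av_nonneg fun z => hA0 x z v v'
        simpa only [av_mul_left] using this
    have r2 : av (fun x : V => av (fun y : V => av (fun z : V => av (fun w : V =>
        ((1 - t y v v') * (t y w v * t y w v')) * (Gd t al x v * t x z v))))) ≤
        2 * al * av (fun y : V => av (fun w : V =>
          (1 - t y v v') * (t y w v * t y w v'))) := by
      have : ∀ x : V, av (fun y : V => av (fun z : V => av (fun w : V =>
        ((1 - t y v v') * (t y w v * t y w v')) * (Gd t al x v * t x z v)))) ≤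
        av (fun y : V => av (fun w : V =>
          (1 - t y v v') * (t y w v * t y w v'))) * (2 * al) := by
        intro x
        simp only [av_mul_right, av_mul_left, av_t t s2]
        apply mul_le_mul_of_nonneg_left (GP_le t hal x v)
        have := av_nonneg fun y => av_nonneg fun w => hA0 y w v v'
        simpa only [av_mul_left] using this
      calc _ ≤ av (fun _ : V => av (fun y : V => av (fun w : V =>
          (1 - t y v v') * (t y w v * t y w v'))) * (2 * al)) := av_mono this
        _ = _ := by rw [av_const, mul_comm]
    have r3 : av (fun x : V => av (fun y : V => av (fun z : V => av (fun w : V =>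
        ((1 - t x y v) * (t x v v' * t y v v')) *
        ((Gd t al x v * t x z v) * (Gd t al y v * t y w v)))))) ≤
        (2 * al) ^ 2 * av (fun x : V => av (fun y : V =>
        (1 - t x y v) * (t x v v' * t y v v'))) := by
      rw [← av_mul_left]
      apply av_mono
      intro x
      rw [← av_mul_left]
      apply av_mono
      intro y
      simp only [av_mul_left, av_mul_right, av_t t s2]
      rw [mul_comm ((2 * al) ^ 2)]
      apply mul_le_mul_of_nonneg_left
      · rw [sq]
        exact mul_le_mul (GP_le t hal x v) (GP_le t hal y v) (GP_nonneg t h0 al y v)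
          (by linarith)
      · exact mul_nonneg (by linarith [h1 x y v]) (mul_nonneg (h0 _ _ _) (h0 _ _ _))
    calc _ ≤ av (fun x : V => av (fun y : V => av (fun z : V => av (fun w : V =>
        ((1 - t x v v') * (t x z v * t x z v')) * (Gd t al y v * t y w v) +
      (((1 - t y v v') * (t y w v * t y w v')) * (Gd t al x v * t x z v) +
      ((1 - t x y v) * (t x v v' * t y v v')) *
        ((Gd t al x v * t x z v) * (Gd t al y v * t y w v))))))) :=
          av_mono fun x => av_mono fun y => av_mono fun z => av_mono fun w =>
            psi_mul_le t h0 h1 al x y z w v v'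
      _ ≤ _ := by
        simp only [av_add]
        exact add_le_add r1 (add_le_add r2 r3)
  have hB1 : av (fun v : V => av (fun v' : V => av (fun x : V => av (fun z : V =>
      (1 - t x v v') * (t x z v * t x z v'))))) = bt t :=
    av4_perm (fun a k i j => (1 - t a i j) * (t a k i * t a k j))
  have hB3 : av (fun v : V => av (fun v' : V => av (fun x : V => av (fun y : V =>
      (1 - t x y v) * (t x v v' * t y v v'))))) = bt t := by
    unfold bt
    congr 1; funext v; congr 1; funext v'; congr 1; funext x; congr 1; funext y
    rw [s2 x y v, s1 x v y, s1 x v v', s2 v x v', s1 y v v', s2 v y v']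
  calc _ ≤ av (fun v : V => av (fun v' : V =>
      2 * al * av (fun x : V => av (fun z : V => (1 - t x v v') * (t x z v * t x z v'))) +
      (2 * al * av (fun y : V => av (fun w : V => (1 - t y v v') * (t y w v * t y w v'))) +
      (2 * al) ^ 2 * av (fun x : V => av (fun y : V =>
        (1 - t x y v) * (t x v v' * t y v v')))))) :=
        av_mono fun v => av_mono fun v' => step v v'
    _ = (4 * al + 4 * al ^ 2) * bt t := by
        simp only [av_add, av_mul_left _ (fun _ => av _)]
        rw [hB1, hB3]; ring

/-- first moment of the pair degrees -/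
noncomputable def m1 : ℝ := av (fun v : V => av (fun x : V => Pd t x v))

/-- second centered moment of the pair degrees -/
noncomputable def m2 (al : ℝ) : ℝ := av (fun v : V => av (fun x : V => (Pd t x v - al) ^ 2))

/-- total average of `psi` -/
noncomputable def Lam (al : ℝ) : ℝ :=
  av (fun x : V => av (fun y : V => av (fun z : V => av (fun w : V =>
    (av (fun v => psi t al x y z w v))))))

theorem Phi_ge (al c : ℝ) : 2 * c * Lam t al - c ^ 2 ≤ Phi t al := by
  have h : ∀ x y z w : V, 2 * c * av (fun v => psi t al x y z w v) - c ^ 2 ≤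
      (av (fun v => psi t al x y z w v)) ^ 2 := by
    intro x y z w
    nlinarith [sq_nonneg (av (fun v => psi t al x y z w v) - c)]
  calc _ = av (fun x : V => av (fun y : V => av (fun z : V => av (fun w : V =>
      (2 * c * av (fun v => psi t al x y z w v) - c ^ 2))))) := by
        simp only [av_sub, av_mul_left, av_const]
        rfl
    _ ≤ _ := av_mono fun x => av_mono fun y => av_mono fun z => av_mono fun w => h x y z w

include s2 in
theorem Lam_eq (al : ℝ) : Lam t al =
    av (fun v : V => av (fun x : V => av (fun y : V =>
      (1 - t x y v) * (Gd t al x v * Pd t x v) * (Gd t al y v * Pd t y v)))) := by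
  have e : ∀ F : V → V → V → V → ℝ,
      av (fun x : V => av (fun y : V => av (fun z : V => av (fun w : V => F x y z w)))) =
      av (fun p : V × V × V × V => F p.1 p.2.1 p.2.2.1 p.2.2.2) := by
    intro F
    rw [av_prod (fun (x : V) (q : V × V × V) => F x q.1 q.2.1 q.2.2)]
    congr 1; funext x
    rw [av_prod (fun (y : V) (q : V × V) => F x y q.1 q.2)]
    congr 1; funext y
    rw [av_prod (fun (z : V) (w : V) => F x y z w)]
  unfold Lam
  rw [e (fun x y z w => av (fun v => psi t al x y z w v)), av_comm]
  congr 1; funext v
  rw [← e (fun x y z w => psi t al x y z w v)]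
  congr 1; funext x; congr 1; funext y
  simp only [psi, av_mul_left, av_mul_right, av_t t s2]

include h0 h1 s1 s2 in
theorem Lam_ge {al : ℝ} (hal : 0 < al) :
    2 * al * m1 t - 4 * m2 t al - al ^ 2 -
      (al ^ 3 + 3 * al ^ 2 * (m1 t - al) + 4 * al * m2 t al) ≤ Lam t al := by
  rw [Lam_eq t s2]
  set q : V → V → ℝ := fun x v => Gd t al x v * Pd t x v with hq
  have hP0 : ∀ x v, 0 ≤ Pd t x v := Pd_nonneg t h0
  have e1 : av (fun v : V => av (fun x : V => av (fun y : V =>
      (1 - t x y v) * (Gd t al x v * Pd t x v) * (Gd t al y v * Pd t y v)))) =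
      av (fun v : V => (av (fun x : V => q x v)) ^ 2) -
      av (fun v : V => av (fun x : V => av (fun y : V => t x y v * (q x v * q y v)))) := by
    rw [← av_sub]
    congr 1; funext v
    rw [av_sq, ← av_sub]
    congr 1; funext x
    rw [← av_sub]
    congr 1; funext y
    simp only [hq]; ring
  rw [e1]
  -- first part
  have f1 : 2 * al * m1 t - 4 * m2 t al - al ^ 2 ≤ av (fun v : V => (av (fun x : V => q x v)) ^ 2) := by
    have g1 : ∀ x v : V, al * Pd t x v - 2 * (Pd t x v - al) ^ 2 ≤ al * q x v := by
      intro x v
      simp only [hq]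
      unfold Gd
      split_ifs with h
      · nlinarith [sq_nonneg (Pd t x v - al)]
      · push Not at h
        nlinarith
    have g2 : al * m1 t - 2 * m2 t al ≤ al * av (fun v : V => av (fun x : V => q x v)) := by
      unfold m1 m2
      rw [← av_mul_left, ← av_mul_left, ← av_sub, ← av_mul_left]
      apply av_mono
      intro v
      rw [← av_mul_left, ← av_mul_left, ← av_sub, ← av_mul_left]
      exact av_mono fun x => g1 x v
    have g3 : 2 * al * av (fun v : V => av (fun x : V => q x v)) - al ^ 2 ≤
        av (fun v : V => (av (fun x : V => q x v)) ^ 2) := by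
      calc _ = av (fun v : V => 2 * al * av (fun x : V => q x v) - al ^ 2) := by
            rw [av_sub, av_mul_left, av_const]
        _ ≤ _ := av_mono fun v => by nlinarith [sq_nonneg (av (fun x : V => q x v) - al)]
    linarith
  -- second part
  have f2 : av (fun v : V => av (fun x : V => av (fun y : V => t x y v * (q x v * q y v)))) ≤
      al ^ 3 + 3 * al ^ 2 * (m1 t - al) + 4 * al * m2 t al := by
    have g1 : av (fun v : V => av (fun x : V => av (fun y : V => t x y v * (q x v * q y v)))) ≤
        av (fun v : V => av (fun x : V => (q x v) ^ 2 * Pd t x v)) := by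
      calc _ ≤ av (fun v : V => av (fun x : V => av (fun y : V =>
            (1 / 2) * (t x y v * (q x v) ^ 2) + (1 / 2) * (t x y v * (q y v) ^ 2)))) :=
            av_mono fun v => av_mono fun x => av_mono fun y => by
              nlinarith [mul_nonneg (h0 x y v) (sq_nonneg (q x v - q y v))]
        _ = _ := by
            have k1 : ∀ v : V, av (fun x : V => av (fun y : V => t x y v * (q y v) ^ 2)) =
                av (fun x : V => (q x v) ^ 2 * Pd t x v) := by
              intro v
              rw [av_comm]
              congr 1; funext y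
              rw [av_mul_right, mul_comm]
              congr 1
              rw [← av_t t s2]
              congr 1; funext x
              exact s1 x y v
            have k2 : ∀ v : V, av (fun x : V => av (fun y : V => t x y v * (q x v) ^ 2)) =
                av (fun x : V => (q x v) ^ 2 * Pd t x v) := by
              intro v
              congr 1; funext x
              rw [av_mul_right, mul_comm, av_t t s2]
            congr 1; funext v
            have : av (fun x : V => av (fun y : V =>
              (1 / 2) * (t x y v * (q x v) ^ 2) + (1 / 2) * (t x y v * (q y v) ^ 2))) =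
              (1 / 2) * av (fun x : V => av (fun y : V => t x y v * (q x v) ^ 2)) +
              (1 / 2) * av (fun x : V => av (fun y : V => t x y v * (q y v) ^ 2)) := by
              rw [← av_mul_left, ← av_mul_left, ← av_add]
              congr 1; funext x
              rw [← av_mul_left, ← av_mul_left, ← av_add]
            rw [this, k1, k2]; ring
    have g2 : ∀ x v : V, (q x v) ^ 2 * Pd t x v ≤
        al ^ 3 + 3 * al ^ 2 * (Pd t x v - al) + 4 * al * (Pd t x v - al) ^ 2 := by
      intro x v
      have := hP0 x v
      simp only [hq]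
      unfold Gd
      split_ifs with h
      · have : (Pd t x v - al) ^ 2 * (2 * al - Pd t x v) ≥ 0 :=
          mul_nonneg (sq_nonneg _) (by linarith)
        nlinarith
      · push Not at h
        have h3 : 0 < Pd t x v - al := by linarith
        have : 0 ≤ al ^ 3 + 3 * al ^ 2 * (Pd t x v - al) + 4 * al * (Pd t x v - al) ^ 2 := by
          positivity
        simpa using this
    calc _ ≤ _ := g1
      _ ≤ av (fun v : V => av (fun x : V =>
        (al ^ 3 + 3 * al ^ 2 * (Pd t x v - al) + 4 * al * (Pd t x v - al) ^ 2))) :=
          av_mono fun v => av_mono fun x => g2 x v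
      _ = _ := by
        simp only [av_add, av_mul_left, av_sub, av_const]
        unfold m1 m2
        ring
  linarith

include h0 h1 s1 s2 in
/-- the three-uniform inequality -/
theorem local_ineq {al c : ℝ} (hal : 0 < al) (hc : 0 ≤ c) :
    2 * c * (2 * al * m1 t - 4 * m2 t al - al ^ 2 -
      (al ^ 3 + 3 * al ^ 2 * (m1 t - al) + 4 * al * m2 t al)) - c ^ 2 ≤
      (4 * al + 4 * al ^ 2) * bt t := by
  have a1 := Lam_ge t h0 h1 s1 s2 hal
  have a2 := Phi_ge t al c
  have a3 := Phi_le t h0 h1 s1 s2 hal.le
  have a4 := mul_le_mul_of_nonneg_left a1 (by linarith : (0 : ℝ) ≤ 2 * c)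
  linarith

end main

end Pool.Agent.H252R2.TD
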