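import Pool.Agent.H252R2.TD.Identity
import Pool.Agent.H252R2.TD.Local

set_option autoImplicit false

/-! The lower bound for families of multisets. -/

namespace Pool.Agent.H252R2.TD
open Finset

variable {V : Type*} [Fintype V] [DecidableEq V] [Nonempty V]

/-- the link of `Q` as a three-variable function -/
def tt (g : Multiset V → ℝ) (Q : Multiset V) (x y z : V) : ℝ := g (x ::ₘ y ::ₘ z ::ₘ Q)

omit [Fintype V] [DecidableEq V] [Nonempty V] in
theorem tt_s1 (g : Multiset V → ℝ) (Q : Multiset V) (x y z : V) :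
    tt g Q x y z = tt g Q y x z := by
  unfold tt; rw [Multiset.cons_swap]

omit [Fintype V] [DecidableEq V] [Nonempty V] in
theorem tt_s2 (g : Multiset V → ℝ) (Q : Multiset V) (x y z : V) :
    tt g Q x y z = tt g Q x z y := by
  unfold tt; rw [Multiset.cons_swap y z]

omit [DecidableEq V] [Nonempty V] in
theorem Pd_tt (g : Multiset V → ℝ) (Q : Multiset V) (x y : V) :
    Pd (tt g Q) x y = pp g (x ::ₘ y ::ₘ Q) := by
  unfold Pd pp
  congr 1; funext z
  unfold tt
  rw [Multiset.cons_swap y z, Multiset.cons_swap x z]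

omit [Nonempty V] in
theorem E_pp (k : ℕ) (g : Multiset V → ℝ) : E k (pp g) = E (k + 1) g := by
  unfold pp
  rw [E_av_comm, E_succ]

omit [Nonempty V] in
theorem E_two (k : ℕ) (F : Multiset V → ℝ) :
    E k (fun Q => av (fun v : V => av (fun x : V => F (x ::ₘ v ::ₘ Q)))) = E (k + 2) F := by
  rw [E_av_comm]
  simp only [E_av_comm]
  rw [av_comm]
  rfl

omit [Nonempty V] in
theorem E_m1 (k : ℕ) (g : Multiset V → ℝ) : E k (fun Q => m1 (tt g Q)) = E (k + 3) g := by
  unfold m1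
  simp only [Pd_tt]
  rw [E_two k (pp g), E_pp]

theorem E_m2 (k : ℕ) (g : Multiset V → ℝ) (al : ℝ) :
    E k (fun Q => m2 (tt g Q) al) =
      E (k + 2) (fun s => pp g s ^ 2) - 2 * al * E (k + 3) g + al ^ 2 := by
  unfold m2
  simp only [Pd_tt]
  rw [E_two k (fun s => (pp g s - al) ^ 2)]
  have : ∀ s : Multiset V, (pp g s - al) ^ 2 = (pp g s ^ 2 - 2 * al * pp g s) + al ^ 2 := by
    intro s; ring
  simp only [this]
  rw [E_add, E_sub, E_mul_left, E_const]
  congr 2
  exact congrArg (2 * al * ·) (E_pp (k + 2) g)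

omit [Fintype V] [DecidableEq V] [Nonempty V] in
theorem perm1 (a x y : V) (Q : Multiset V) : a ::ₘ x ::ₘ y ::ₘ Q = y ::ₘ x ::ₘ a ::ₘ Q := by
  rw [Multiset.cons_swap x y, Multiset.cons_swap a y, Multiset.cons_swap a x]

omit [Fintype V] [DecidableEq V] [Nonempty V] in
theorem perm2 (a z x : V) (Q : Multiset V) : a ::ₘ z ::ₘ x ::ₘ Q = z ::ₘ x ::ₘ a ::ₘ Q := by
  rw [Multiset.cons_swap a z, Multiset.cons_swap a x]

theorem E_bt (k : ℕ) (g : Multiset V → ℝ) :
    E k (fun Q => bt (tt g Q)) = bet (k + 1) g := by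
  unfold bt bet
  simp only [E_av_comm, E_succ]
  rw [← av4_perm' (fun a k' i j : V => E k (fun Q =>
    (1 - tt g Q a i j) * (tt g Q a k' i * tt g Q a k' j)))]
  congr 1; funext z; congr 1; funext y; congr 1; funext x; congr 1; funext a
  congr 1; funext Q
  unfold tt
  rw [perm1 a x y, perm2 a z x, perm2 a z y]

/-- the main inequality -/
theorem main_ineq (k : ℕ) {g : Multiset V → ℝ} (h : ZO g)
    (hc : ∀ M : Multiset V, M.card = k + 4 → 1 ≤ ee g M) (hpos : 0 < E (k + 3) g) :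
    ((k : ℝ) + 2) * ((E (k + 3) g) ^ 3 * (1 - E (k + 3) g) ^ 2) ≤
      4 * (1 + E (k + 3) g) * ((((k : ℝ) + 3) * E (k + 3) g - 1) * (1 - E (k + 3) g)) := by
  set al := E (k + 3) g with hal
  have h1 : al ≤ 1 := by
    have : E (k + 3) g ≤ E (k + 3) (fun _ : Multiset V => (1 : ℝ)) :=
      E_mono _ fun M _ => h.le_one M
    rwa [E_const] at this
  have hb := basic (V := V) (k + 1) h hc
  have hvar0 : 0 ≤ E (k + 2) (fun s => pp g s ^ 2) - al ^ 2 := by
    have e1 : E (k + 2) (fun s => (pp g s - al) ^ 2) =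
        E (k + 2) (fun s => pp g s ^ 2) - al ^ 2 := by
      have : ∀ s : Multiset V, (pp g s - al) ^ 2 = (pp g s ^ 2 - 2 * al * pp g s) + al ^ 2 := by
        intro s; ring
      simp only [this]
      rw [E_add, E_sub, E_mul_left, E_const]
      have : E (k + 2) (fun M => pp g M) = al := E_pp (k + 2) g
      rw [this]; ring
    rw [← e1]
    have := E_mono (V := V) (k + 2) (F := fun _ => (0 : ℝ))
      (G := fun s => (pp g s - al) ^ 2) fun M _ => sq_nonneg _
    rwa [E_const] at this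
  set var := E (k + 2) (fun s => pp g s ^ 2) - al ^ 2 with hvar
  have hloc : 2 * (al ^ 2 * (1 - al)) * (2 * al * al - 4 * var - al ^ 2 -
      (al ^ 3 + 3 * al ^ 2 * (al - al) + 4 * al * var)) - (al ^ 2 * (1 - al)) ^ 2 ≤
      (4 * al + 4 * al ^ 2) * bet (k + 1) g := by
    have e := E_mono (V := V) k
      (F := fun Q => 2 * (al ^ 2 * (1 - al)) * (2 * al * m1 (tt g Q) - 4 * m2 (tt g Q) al - al ^ 2 -
      (al ^ 3 + 3 * al ^ 2 * (m1 (tt g Q) - al) + 4 * al * m2 (tt g Q) al)) -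
        (al ^ 2 * (1 - al)) ^ 2)
      (G := fun Q => (4 * al + 4 * al ^ 2) * bt (tt g Q))
      (fun Q _ => local_ineq (tt g Q) (fun x y z => h.nonneg _) (fun x y z => h.le_one _)
        (tt_s1 g Q) (tt_s2 g Q) hpos (mul_nonneg (sq_nonneg _) (by linarith)))
    rw [E_mul_left, E_bt] at e
    have e2 : E k (fun Q => 2 * (al ^ 2 * (1 - al)) * (2 * al * m1 (tt g Q) - 4 * m2 (tt g Q) al - al ^ 2 -
      (al ^ 3 + 3 * al ^ 2 * (m1 (tt g Q) - al) + 4 * al * m2 (tt g Q) al)) -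
        (al ^ 2 * (1 - al)) ^ 2) =
        2 * (al ^ 2 * (1 - al)) * (2 * al * al - 4 * var - al ^ 2 -
      (al ^ 3 + 3 * al ^ 2 * (al - al) + 4 * al * var)) - (al ^ 2 * (1 - al)) ^ 2 := by
      have f1 := E_m1 k g
      have f2 := E_m2 k g al
      rw [← hal] at f1 f2
      have f3 : E (k + 2) (fun s => pp g s ^ 2) - 2 * al * al + al ^ 2 = var := by
        rw [hvar]; ring
      rw [f3] at f2
      simp only [E_sub, E_mul_left, E_add, E_const, f1, f2]
    rwa [e2] at e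
  have hk : (0 : ℝ) ≤ k := Nat.cast_nonneg _
  push_cast at hb
  have hb' : ((k : ℝ) + 2) * bet (k + 1) g ≤ ((k : ℝ) + 4) * al - 1 - ((k : ℝ) + 3) * (var + al ^ 2) := by
    have : E (k + 1 + 1) (fun s => pp g s ^ 2) = var + al ^ 2 := by rw [hvar]; ring
    have e3 : E (k + 1 + 2) g = al := rfl
    rw [this, e3] at hb
    nlinarith [hb]
  -- combine
  have hq1 : al ^ 4 * (1 - al) ^ 2 - 8 * al ^ 2 * (1 - al ^ 2) * var ≤
      4 * al * (1 + al) * bet (k + 1) g := by
    nlinarith [hloc]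
  have hq2 : al ^ 3 * (1 - al) ^ 2 - 8 * al * (1 - al ^ 2) * var ≤
      4 * (1 + al) * bet (k + 1) g := by
    have : al * (al ^ 3 * (1 - al) ^ 2 - 8 * al * (1 - al ^ 2) * var) ≤
      al * (4 * (1 + al) * bet (k + 1) g) := by nlinarith [hq1]
    exact le_of_mul_le_mul_left this hpos
  have hq3 : ((k : ℝ) + 2) * (al ^ 3 * (1 - al) ^ 2) - ((k : ℝ) + 2) * (8 * al * (1 - al ^ 2) * var) ≤
      4 * (1 + al) * (((k : ℝ) + 2) * bet (k + 1) g) := by
    have := mul_le_mul_of_nonneg_left hq2 (by linarith : (0 : ℝ) ≤ (k : ℝ) + 2)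
    nlinarith [this]
  have hq4 : 4 * (1 + al) * (((k : ℝ) + 2) * bet (k + 1) g) ≤
      4 * (1 + al) * (((k : ℝ) + 4) * al - 1 - ((k : ℝ) + 3) * (var + al ^ 2)) :=
    mul_le_mul_of_nonneg_left hb' (by linarith)
  have hq5 : ((k : ℝ) + 2) * (8 * al * (1 - al ^ 2) * var) ≤ 4 * (1 + al) * (((k : ℝ) + 3) * var) := by
    have u1 : 8 * al * (1 - al) ≤ 2 := by nlinarith [sq_nonneg (2 * al - 1)]
    have u2 : ((k : ℝ) + 2) * (8 * al * (1 - al ^ 2) * var) =
        (1 + al) * var * (((k : ℝ) + 2) * (8 * al * (1 - al))) := by ring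
    have u3 : 4 * (1 + al) * (((k : ℝ) + 3) * var) = (1 + al) * var * (4 * ((k : ℝ) + 3)) := by ring
    rw [u2, u3]
    apply mul_le_mul_of_nonneg_left _ (mul_nonneg (by linarith) hvar0)
    nlinarith
  nlinarith [hq3, hq4, hq5]

/-- explicit form -/
theorem main_explicit (k : ℕ) {g : Multiset V → ℝ} (h : ZO g)
    (hc : ∀ M : Multiset V, M.card = k + 4 → 1 ≤ ee g M) :
    1 / ((k : ℝ) + 3) + 1 / (13 * ((k : ℝ) + 3) ^ 3) ≤ E (k + 3) g := by
  set al := E (k + 3) g with hal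
  set r : ℝ := (k : ℝ) + 3 with hr
  have hk : (0 : ℝ) ≤ k := Nat.cast_nonneg _
  have hr3 : 3 ≤ r := by linarith
  have h1 : al ≤ 1 := by
    have : E (k + 3) g ≤ E (k + 3) (fun _ : Multiset V => (1 : ℝ)) :=
      E_mono _ fun M _ => h.le_one M
    rwa [E_const] at this
  -- trivial bound gives positivity
  have hpos : 0 < al := by
    have e1 := E_ee (V := V) (k + 3) g
    have e2 : E (k + 4) (fun _ : Multiset V => (1 : ℝ)) ≤ E (k + 4) (ee g) :=
      E_mono _ fun M hM => hc M hM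
    rw [E_const] at e2
    rw [show k + 4 = (k + 3) + 1 from rfl, e1] at e2
    push_cast at e2
    by_contra hcon
    push Not at hcon
    nlinarith
  have hm := main_ineq k h hc hpos
  rw [← hal] at hm
  by_contra hcon
  push Not at hcon
  have hr0 : 0 < r := by linarith
  have e0 : 1 / r + 1 / (13 * r ^ 3) ≤ 3366 / 10000 := by
    have a1 : 1 / r ≤ 1 / 3 := one_div_le_one_div_of_le (by norm_num) hr3
    have a2 : (27 : ℝ) ≤ r ^ 3 := by
      calc (27 : ℝ) = 3 ^ 3 := by norm_num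
        _ ≤ r ^ 3 := pow_le_pow_left₀ (by norm_num) hr3 3
    have a3 : 1 / (13 * r ^ 3) ≤ 1 / (13 * 27) :=
      one_div_le_one_div_of_le (by norm_num) (by linarith)
    have : (1 : ℝ) / 3 + 1 / (13 * 27) ≤ 3366 / 10000 := by norm_num
    linarith
  have hal2 : al < 3366 / 10000 := by linarith
  -- divide by `1 - al`
  have hm' : (r - 1) * (al ^ 3 * (1 - al)) ≤ 4 * (1 + al) * (r * al - 1) := by
    have : (1 - al) * ((r - 1) * (al ^ 3 * (1 - al))) ≤ (1 - al) * (4 * (1 + al) * (r * al - 1)) := by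
      have e : (k : ℝ) + 2 = r - 1 := by rw [hr]; ring
      rw [e] at hm
      nlinarith [hm]
    exact le_of_mul_le_mul_left this (by linarith)
  have hra : 1 ≤ r * al := by
    by_contra hc2
    push Not at hc2
    have p1 : 0 ≤ (r - 1) * (al ^ 3 * (1 - al)) :=
      mul_nonneg (by linarith) (mul_nonneg (by positivity) (by linarith))
    have p2 : 4 * (1 + al) * (r * al - 1) < 0 :=
      mul_neg_of_pos_of_neg (by linarith) (by linarith)
    linarith
  have hub : r * al - 1 < 1 / (13 * r ^ 2) := by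
    have : r * al < r * (1 / r + 1 / (13 * r ^ 3)) := mul_lt_mul_of_pos_left hcon hr0
    have e : r * (1 / r + 1 / (13 * r ^ 3)) = 1 + 1 / (13 * r ^ 2) := by field_simp
    linarith
  have hal3 : 1 / r ^ 3 ≤ al ^ 3 := by
    have : 1 / r ≤ al := by
      rw [div_le_iff₀ hr0]; linarith
    calc 1 / r ^ 3 = (1 / r) ^ 3 := by rw [div_pow, one_pow]
      _ ≤ al ^ 3 := pow_le_pow_left₀ (by positivity) this 3
  have lhs : (r - 1) * (1 / r ^ 3 * (1 - al)) ≤ (r - 1) * (al ^ 3 * (1 - al)) :=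
    mul_le_mul_of_nonneg_left (mul_le_mul_of_nonneg_right hal3 (by linarith)) (by linarith)
  have rhs : 4 * (1 + al) * (r * al - 1) < 4 * (1 + al) * (1 / (13 * r ^ 2)) :=
    mul_lt_mul_of_pos_left hub (by linarith)
  have hfin : (r - 1) * (1 / r ^ 3 * (1 - al)) < 4 * (1 + al) * (1 / (13 * r ^ 2)) := by linarith
  have hfin2 : 13 * (r - 1) * (1 - al) < 4 * (1 + al) * r := by
    have e1 : (r - 1) * (1 / r ^ 3 * (1 - al)) * (13 * r ^ 3) = 13 * (r - 1) * (1 - al) := by
      field_simp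
    have e2 : 4 * (1 + al) * (1 / (13 * r ^ 2)) * (13 * r ^ 3) = 4 * (1 + al) * r := by
      field_simp
    rw [← e1, ← e2]
    exact mul_lt_mul_of_pos_right hfin (by positivity)
  -- 13 (r-1)(1-al) ≥ 4 (1+al) r for al < .3366, r ≥ 3
  nlinarith [mul_nonneg (by linarith : (0 : ℝ) ≤ r - 3) (by linarith : (0 : ℝ) ≤ 3366 / 10000 - al)]

end Pool.Agent.H252R2.TD
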