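import Pool.Agent.H252R2.TD.Main

set_option autoImplicit false

/-! From `K_{r+1}^r`-free hypergraphs to families of multisets. -/

namespace Pool.Agent.H252R2.TD
open Finset

variable {n : ℕ}

/-- indicator of `not an edge` on multisets -/
noncomputable def gG (G : Finset (Finset (Fin n))) (M : Multiset (Fin n)) : ℝ := by
  classical exact 1 - ∑ S ∈ G, if M = S.val then (1 : ℝ) else 0

theorem gG_eq (G : Finset (Finset (Fin n))) (M : Multiset (Fin n)) :
    gG G M = 1 - ∑ S ∈ G, if M = S.val then (1 : ℝ) else 0 := by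
  classical
  unfold gG
  congr

theorem gG_mem {G : Finset (Finset (Fin n))} {S : Finset (Fin n)} (hS : S ∈ G) :
    gG G S.val = 0 := by
  classical
  rw [gG_eq, Finset.sum_eq_single S]
  · simp
  · intro T _ hT
    rw [if_neg]
    intro h
    exact hT (Finset.val_injective h).symm
  · intro h; exact absurd hS h

theorem gG_not {G : Finset (Finset (Fin n))} {M : Multiset (Fin n)}
    (h : ∀ S ∈ G, M ≠ S.val) : gG G M = 1 := by
  classical
  rw [gG_eq, Finset.sum_eq_zero]
  · norm_num
  · intro S hS
    rw [if_neg (h S hS)]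

theorem gG_ZO (G : Finset (Finset (Fin n))) : ZO (gG G) := by
  intro M
  by_cases h : ∃ S ∈ G, M = S.val
  · obtain ⟨S, hS, rfl⟩ := h
    exact Or.inl (gG_mem hS)
  · push Not at h
    exact Or.inr (gG_not h)

theorem gG_one {G : Finset (Finset (Fin n))} {M : Multiset (Fin n)} (h : gG G M = 0) :
    ∃ S ∈ G, M = S.val := by
  by_contra hcon
  push Not at hcon
  rw [gG_not hcon] at h
  exact one_ne_zero h

/-- every multiset of size `r+1` contains a non-edge -/
theorem one_le_ee {r : ℕ} (hr : 3 ≤ r) {G : Finset (Finset (Fin n))}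
    (hfree : ¬ ∃ S : Finset (Fin n), S.card = r + 1 ∧
      ∀ e : Finset (Fin n), e ⊆ S → e.card = r → e ∈ G)
    (M : Multiset (Fin n)) (hM : M.card = r + 1) : 1 ≤ ee (gG G) M := by
  classical
  by_contra hcon
  push Not at hcon
  obtain ⟨m, hm1, hm2⟩ := ee_nat (gG_ZO G) M
  rw [hm2] at hcon
  have hm0 : m = 0 := by
    have : m < 1 := by exact_mod_cast hcon
    omega
  rw [hm0] at hm2
  -- all erasures are edges
  have hall : ∀ x ∈ M, gG G (M.erase x) = 0 := by
    intro x hx
    have h1 := Multiset.cons_erase hx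
    have h2 : ee (gG G) M = gG G (M.erase x) + ((M.erase x).map (fun y => gG G (M.erase y))).sum := by
      unfold ee
      conv_lhs => rw [← h1]
      rw [Multiset.map_cons, Multiset.sum_cons, h1]
    have h3 : 0 ≤ ((M.erase x).map (fun y => gG G (M.erase y))).sum := by
      apply Multiset.sum_nonneg
      intro a ha
      obtain ⟨y, _, rfl⟩ := Multiset.mem_map.1 ha
      exact (gG_ZO G).nonneg _
    have h4 := (gG_ZO G).nonneg (M.erase x)
    rw [hm2] at h2
    push_cast at h2
    linarith
  have hnod : ∀ x ∈ M, (M.erase x).Nodup := by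
    intro x hx
    obtain ⟨S, _, hS⟩ := gG_one (hall x hx)
    rw [hS]; exact S.nodup
  have hMn : M.Nodup := by
    rw [Multiset.nodup_iff_count_le_one]
    intro a
    by_contra hc
    push Not at hc
    have ha : a ∈ M := Multiset.count_pos.1 (by omega)
    have h1 := Multiset.nodup_iff_count_le_one.1 (hnod a ha) a
    rw [Multiset.count_erase_self] at h1
    have h2 : Multiset.count a M = 2 := by omega
    -- another element
    have h3 : ∃ b ∈ M, b ≠ a := by
      by_contra hb
      push Not at hb
      have := Multiset.eq_replicate_card.2 hb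
      rw [hM] at this
      rw [this, Multiset.count_replicate_self] at h2
      omega
    obtain ⟨b, hb, hba⟩ := h3
    have h4 := Multiset.nodup_iff_count_le_one.1 (hnod b hb) a
    rw [Multiset.count_erase_of_ne (Ne.symm hba)] at h4
    omega
  apply hfree
  refine ⟨⟨M, hMn⟩, hM, ?_⟩
  intro e he hecard
  obtain ⟨x, hx, hxe⟩ := Finset.exists_mem_notMem_of_card_lt_card
    (s := e) (t := (⟨M, hMn⟩ : Finset (Fin n))) (by
      rw [hecard]; change r < M.card; omega)
  have hxM : x ∈ M := hx
  have hsub : e ⊆ (⟨M, hMn⟩ : Finset (Fin n)).erase x := fun y hy =>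
    Finset.mem_erase.2 ⟨fun h => hxe (h ▸ hy), he hy⟩
  have heq : e = (⟨M, hMn⟩ : Finset (Fin n)).erase x := by
    apply Finset.eq_of_subset_of_card_le hsub
    rw [Finset.card_erase_of_mem hx, hecard]
    change M.card - 1 ≤ r
    omega
  obtain ⟨S, hS, hSM⟩ := gG_one (hall x hxM)
  have : e = S := by
    apply Finset.val_injective
    rw [heq, Finset.erase_val, ← hSM]
  rw [this]; exact hS

theorem E_gG {r : ℕ} [NeZero n] {G : Finset (Finset (Fin n))} (hG : ∀ e ∈ G, e.card = r) :
    E r (gG G) = 1 - (G.card : ℝ) * ((r.factorial : ℝ) / (n : ℝ) ^ r) := by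
  classical
  have hne : Nonempty (Fin n) := ⟨0⟩
  have h1 : E r (gG G) = E r (fun M => 1 - ∑ S ∈ G, if M = S.val then (1 : ℝ) else 0) :=
    E_congr r fun M _ => gG_eq G M
  have hsum : ∀ A : Finset (Finset (Fin n)), (∀ e ∈ A, e.card = r) →
      E r (fun M => ∑ S ∈ A, if M = S.val then (1 : ℝ) else 0) =
      (A.card : ℝ) * ((r.factorial : ℝ) / (n : ℝ) ^ r) := by
    intro A
    induction A using Finset.induction with
    | empty => intro _; simp [E_zero_fun]
    | insert a A ha ih =>
      intro hA
      simp only [Finset.sum_insert ha]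
      rw [E_add, ih (fun e he => hA e (Finset.mem_insert_of_mem he)),
        E_ind r a (hA a (Finset.mem_insert_self _ _)), Finset.card_insert_of_notMem ha,
        Fintype.card_fin]
      push_cast; ring
  rw [h1, E_sub, E_const, hsum G hG]

end Pool.Agent.H252R2.TD
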